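import Mathlib

/-!
# Gluing

Let `K` be a group with homomorphisms `f i : S i →* K` of subgroups `S i` of groups `A i`. Suppose that
each `f i` is injective or trivial and that the free product of the `S i`, `i ∈ I`, embeds into `K`.
Then there is a group `P ≥ K` with homomorphisms `A i →* P` which extend the `f i` on the `S i`, such
that the free product of the `A i`, `i ∈ I`, embeds into `P`.
-/

set_option autoImplicit false
set_option linter.unusedSectionVars false

namespace Pool.Agent.Run7.h621

open Monoid Function

/-- Amalgamated products exist. -/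
theorem amalg {C X Y : Type} [Group C] [Group X] [Group Y] (f : C →* X) (g : C →* Y)
    (hf : Injective f) (hg : Injective g) :
    ∃ (P : Type) (_ : Group P) (x : X →* P) (y : Y →* P), Injective x ∧ Injective y ∧
      ∀ c, x (f c) = y (g c) := by
  let G : Bool → Type := fun b => match b with
    | false => X
    | true => Y
  let iG : ∀ b, Group (G b) := fun b => match b with
    | false => inferInstanceAs (Group X)
    | true => inferInstanceAs (Group Y)
  let φ : ∀ b, C →* G b := fun b => match b with
    | false => (f : C →* X)
    | true => (g : C →* Y)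
  have hφ : ∀ b, Injective (φ b) := by
    intro b
    cases b
    · exact hf
    · exact hg
  refine ⟨PushoutI φ, inferInstance, (PushoutI.of (φ := φ) false : G false →* _),
    (PushoutI.of (φ := φ) true : G true →* _), PushoutI.of_injective hφ false,
    PushoutI.of_injective hφ true, ?_⟩
  intro c
  have h1 := PushoutI.of_apply_eq_base φ false c
  have h2 := PushoutI.of_apply_eq_base φ true c
  exact h1.trans h2.symm

/-- Amalgamated products of families. -/
theorem amalgFam {ι H : Type} [Group H] (G : ι → Type) [∀ i, Group (G i)] (φ : ∀ i, H →* G i)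
    (hφ : ∀ i, Injective (φ i)) :
    ∃ (P : Type) (_ : Group P) (h : H →* P) (y : ∀ i, G i →* P), Injective h ∧
      (∀ i, Injective (y i)) ∧ ∀ i x, y i (φ i x) = h x :=
  ⟨PushoutI φ, inferInstance, PushoutI.base φ, fun i => PushoutI.of i,
    PushoutI.base_injective hφ, fun i => PushoutI.of_injective hφ i,
    fun i x => PushoutI.of_apply_eq_base φ i x⟩

/-- Map a word letterwise. -/
def wMap {ι : Type} {M N : ι → Type} [∀ i, Monoid (M i)] [∀ i, Monoid (N i)]
    (f : ∀ i, M i →* N i) (hf : ∀ i, Injective (f i)) (w : CoprodI.Word M) : CoprodI.Word N where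
  toList := w.toList.map fun l => ⟨l.1, f l.1 l.2⟩
  ne_one := by
    intro l hl
    simp only [List.mem_map] at hl
    obtain ⟨l', hl', rfl⟩ := hl
    intro h
    apply w.ne_one l' hl'
    apply hf l'.1
    simpa using h
  chain_ne := by
    rw [List.isChain_map]
    exact w.chain_ne

/-- Maps of free products are injective if their components are. -/
theorem coprod_map_inj {ι : Type} {M N : ι → Type} [∀ i, Group (M i)] [∀ i, Group (N i)]
    (f : ∀ i, M i →* N i) (hf : ∀ i, Injective (f i)) :
    Injective (CoprodI.lift fun i => (CoprodI.of (M := N)).comp (f i)) := by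
  classical
  rw [injective_iff_map_eq_one]
  intro x hx
  obtain ⟨w, rfl⟩ := CoprodI.Word.equiv.symm.surjective x
  change CoprodI.lift _ w.prod = 1 at hx
  have e : CoprodI.lift (fun i => (CoprodI.of (M := N)).comp (f i)) w.prod =
      (wMap f hf w).prod := by
    simp only [CoprodI.Word.prod, wMap, map_list_prod, List.map_map]
    congr 1
  rw [e] at hx
  have h2 : wMap f hf w = CoprodI.Word.empty := by
    apply CoprodI.Word.equiv.symm.injective
    change (wMap f hf w).prod = CoprodI.Word.empty.prod
    rw [hx, CoprodI.Word.prod_empty]
  have h3 : w = CoprodI.Word.empty := by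
    apply CoprodI.Word.ext
    have := congrArg CoprodI.Word.toList h2
    simpa [wMap, CoprodI.Word.empty] using this
  rw [h3]
  exact CoprodI.Word.prod_empty

theorem glue {n : ℕ} (A S : Fin n → Type) [∀ i, Group (A i)] [∀ i, Group (S i)]
    (j : ∀ i, S i →* A i) (hj : ∀ i, Injective (j i))
    {K : Type} [Group K] (f : ∀ i, S i →* K)
    (hst : ∀ i, Injective (f i) ∨ ∀ s, f i s = 1)
    (I : Finset (Fin n))
    (hI : Injective (CoprodI.lift (M := fun i : I => S i) (fun i => f i))) :
    ∃ (P : Type) (_ : Group P) (h : K →* P) (a : ∀ i, A i →* P), Injective h ∧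
      (∀ i s, a i (j i s) = h (f i s)) ∧
      Injective (CoprodI.lift (M := fun i : I => A i) (fun i => a i)) := by
  classical
  -- the factors in `I`
  obtain ⟨Q, iQ, x, y, hx, hy, hxy⟩ := amalg
    (CoprodI.lift (M := fun i : I => S i) (fun i => f i))
    (CoprodI.lift (M := fun i : I => S i) fun i => (CoprodI.of (M := fun i : I => A i)).comp (j i))
    hI (coprod_map_inj (M := fun i : I => S i) (N := fun i : I => A i) (fun i => j i)
      (fun i => hj i))
  -- the other factors
  have hex : ∀ i : Fin n, ∃ (T : Type) (_ : Group T) (p : K →* T) (q : A i →* T), Injective p ∧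
      ∀ s, q (j i s) = p (f i s) := by
    intro i
    rcases hst i with h | h
    · obtain ⟨T, iT, p, q, hp, hq, hpq⟩ := amalg (f i) (j i) h (hj i)
      exact ⟨T, iT, p, q, hp, fun s => (hpq s).symm⟩
    · exact ⟨K, inferInstance, MonoidHom.id K, 1, injective_id, fun s => by simp [h s]⟩
  choose T iT p q hp hpq using hex
  -- glue all together
  let G : Option (Fin n) → Type := fun o => match o with
    | none => Q
    | some i => T i
  let iG : ∀ o, Group (G o) := fun o => match o with
    | none => inferInstanceAs (Group Q)
    | some i => inferInstanceAs (Group (T i))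
  let φ : ∀ o, K →* G o := fun o => match o with
    | none => (x : K →* Q)
    | some i => (p i : K →* T i)
  have hφ : ∀ o, Injective (φ o) := by
    intro o
    cases o with
    | none => exact hx
    | some i => exact hp i
  obtain ⟨P, iP, h, z, hh, hz, hzφ⟩ := amalgFam G φ hφ
  refine ⟨P, iP, h, fun i => if hi : i ∈ I then
      ((z none : Q →* P).comp y).comp (CoprodI.of (M := fun i : I => A i) (i := ⟨i, hi⟩))
    else (z (some i) : T i →* P).comp (q i), hh, ?_, ?_⟩
  · intro i s
    by_cases hi : i ∈ I
    · simp only [hi, dite_true]
      have e1 := hxy (CoprodI.of (M := fun i : I => S i) (i := ⟨i, hi⟩) s)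
      simp only [CoprodI.lift_of, MonoidHom.comp_apply] at e1
      change (z none : Q →* P) (y (CoprodI.of (M := fun i : I => A i) (i := ⟨i, hi⟩) (j i s))) = _
      rw [← e1]
      exact hzφ none (f i s)
    · simp only [hi, dite_false]
      change (z (some i) : T i →* P) (q i (j i s)) = _
      rw [hpq]
      exact hzφ (some i) (f i s)
  · have e : CoprodI.lift (M := fun i : I => A i) (fun i => if hi : (i : Fin n) ∈ I then
        ((z none : Q →* P).comp y).comp (CoprodI.of (M := fun i : I => A i) (i := ⟨i, hi⟩))
      else (z (some (i : Fin n)) : T i →* P).comp (q i)) = (z none : Q →* P).comp y := by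
      apply CoprodI.ext_hom
      intro i
      ext a
      simp
    rw [e]
    exact (hz none).comp hy

end Pool.Agent.Run7.h621
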