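import Mathlib

/-!
# Finitely generated torsion-free abelian groups embed in the real numbers
-/

set_option autoImplicit false
set_option linter.unusedSectionVars false

namespace Pool.Agent.Run7.h621

open Function

/-- A finitely generated torsion-free abelian group embeds in the real numbers. -/
theorem exists_real_embedding (S : Type) [Group S] (hcomm : ∀ s t : S, s * t = t * s)
    (htf : ∀ g : S, g ≠ 1 → ¬ IsOfFinOrder g) (hfg : Group.FG S) :
    ∃ l : S → ℝ, Injective l ∧ ∀ s t, l (s * t) = l s + l t := by
  classical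
  let iC : CommGroup S := { (inferInstance : Group S) with mul_comm := hcomm }
  have hfin : Module.Finite ℤ (Additive S) := by
    rw [Module.Finite.iff_addGroup_fg, AddGroup.fg_iff_addMonoid_fg, ← Monoid.fg_iff_add_fg,
      ← Group.fg_iff_monoid_fg]
    exact hfg
  have htf' : IsAddTorsionFree (Additive S) := by
    have : IsMulTorsionFree S := by
      constructor
      intro k hk a b hab
      simp only at hab
      by_contra hne
      have h1 : a * b⁻¹ ≠ 1 := fun h => hne (mul_inv_eq_one.mp h)
      apply htf _ h1
      rw [isOfFinOrder_iff_pow_eq_one]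
      refine ⟨k, Nat.pos_of_ne_zero hk, ?_⟩
      rw [mul_pow, inv_pow, hab, mul_inv_cancel]
    infer_instance
  have hfree : Module.Free ℤ (Additive S) := Module.free_of_finite_type_torsion_free'
  obtain ⟨d, b⟩ : ∃ d : ℕ, Nonempty (Module.Basis (Fin d) ℤ (Additive S)) :=
    ⟨Module.finrank ℤ (Additive S), ⟨Module.finBasis ℤ (Additive S)⟩⟩
  obtain ⟨b⟩ := b
  have hrank : ((d : ℕ) : Cardinal) ≤ Module.rank ℚ ℝ := by
    rw [Real.rank_rat_real]
    exact (Cardinal.nat_lt_continuum d).le
  obtain ⟨s, hs, hli⟩ := le_rank_iff_exists_linearIndependent_finset.mp hrank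
  have e : Fin d ≃ s := (Fintype.equivFinOfCardEq (by simp [hs])).symm
  have hli2 : LinearIndependent ℚ (fun i : Fin d => ((e i : s) : ℝ)) := by
    exact hli.comp e e.injective
  have hli3 : LinearIndependent ℤ (fun i : Fin d => ((e i : s) : ℝ)) :=
    hli2.restrict_scalars (by
      intro a b hab
      simpa using hab)
  let φ : Additive S →ₗ[ℤ] ℝ := b.constr ℤ (fun i : Fin d => ((e i : s) : ℝ))
  have hφ : Injective φ := by
    rw [← LinearMap.ker_eq_bot]
    apply LinearMap.ker_eq_bot'.mpr
    intro m hm
    have h1 : m = ∑ i, b.repr m i • b i := (b.sum_repr m).symm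
    have h2 : ∑ i, b.repr m i • ((e i : s) : ℝ) = 0 := by
      rw [← hm]
      conv_rhs => rw [h1, map_sum]
      apply Finset.sum_congr rfl
      intro i _
      rw [map_smul, Module.Basis.constr_basis]
    have h3 := Fintype.linearIndependent_iff.mp hli3 (fun i => b.repr m i) h2
    rw [h1]
    apply Finset.sum_eq_zero
    intro i _
    rw [h3 i, zero_smul]
  refine ⟨fun x => φ (Additive.ofMul x), fun x y h => ?_, fun x y => ?_⟩
  · exact Additive.ofMul.injective (hφ h)
  · change φ (Additive.ofMul (x * y)) = _
    rw [ofMul_mul, map_add]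

end Pool.Agent.Run7.h621
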