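import Pool.Agent.Run7.h621.Tower
import Pool.Agent.Run7.h621.Glue
import Pool.Agent.Run7.h621.RealEmb

/-!
# The main theorem
-/

set_option autoImplicit false
set_option linter.unusedSectionVars false

namespace Pool.Agent.Run7.h621

open Monoid Function

/-- The map of free products induced by subgroups. -/
def incl {ι : Type} {A : ι → Type} [∀ i, Group (A i)] (S : ∀ i, Subgroup (A i)) :
    CoprodI (fun i => S i) →* CoprodI A :=
  CoprodI.lift fun i => (CoprodI.of (M := A)).comp (S i).subtype

theorem incl_of {ι : Type} {A : ι → Type} [∀ i, Group (A i)] (S : ∀ i, Subgroup (A i)) (i : ι)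
    (s : S i) : incl S (CoprodI.of s) = CoprodI.of (s : A i) := by
  simp [incl]

/-- Only finitely many letters occur in an element of a free product. -/
theorem exists_fg {ι : Type} {A : ι → Type} [∀ i, Group (A i)] (x : CoprodI A) :
    ∃ F : ∀ i, Finset (A i), ∀ S : ∀ i, Subgroup (A i), (∀ i, ∀ a ∈ F i, a ∈ S i) →
      x ∈ (incl S).range := by
  classical
  induction x using CoprodI.induction_on with
  | one => exact ⟨fun _ => ∅, fun S _ => one_mem _⟩
  | of i a =>
    refine ⟨Function.update (fun _ => ∅) i {a}, fun S hS => ?_⟩
    refine ⟨CoprodI.of (⟨a, hS i a (by simp)⟩ : S i), ?_⟩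
    rw [incl_of]
  | mul x y hx hy =>
    obtain ⟨F, hF⟩ := hx
    obtain ⟨F', hF'⟩ := hy
    refine ⟨fun i => F i ∪ F' i, fun S hS => mul_mem ?_ ?_⟩
    · exact hF S (fun i a ha => hS i a (Finset.mem_union_left _ ha))
    · exact hF' S (fun i a ha => hS i a (Finset.mem_union_right _ ha))

/-- The conclusion of the Freiheitssatz follows from a homomorphism which kills the relators. -/
theorem concl {n m : ℕ} (A : Fin n → Type) [∀ i, Group (A i)] (R : Fin m → CoprodI A)
    {P : Type} [Group P] (Θ : CoprodI A →* P) (hR : ∀ j, Θ (R j) = 1) (T : Finset (Fin n))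
    (hT : Injective (CoprodI.lift (M := fun i : T => A i)
      (fun i => Θ.comp (CoprodI.of (i := (i : Fin n)))))) :
    Injective ((QuotientGroup.mk' (Subgroup.normalClosure (Set.range R))).comp
      (CoprodI.lift (M := fun i : T => A i) (fun i => CoprodI.of (i := (i : Fin n))))) := by
  have hle : Subgroup.normalClosure (Set.range R) ≤ Θ.ker := by
    apply Subgroup.normalClosure_le_normal
    rintro _ ⟨j, rfl⟩
    exact hR j
  have e : (QuotientGroup.lift (Subgroup.normalClosure (Set.range R)) Θ hle).comp
      ((QuotientGroup.mk' (Subgroup.normalClosure (Set.range R))).comp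
      (CoprodI.lift (M := fun i : T => A i) (fun i => CoprodI.of (i := (i : Fin n))))) =
      CoprodI.lift (M := fun i : T => A i) (fun i => Θ.comp (CoprodI.of (i := (i : Fin n)))) := by
    apply CoprodI.ext_hom
    intro i
    ext a
    simp
  rw [← e] at hT
  rw [MonoidHom.coe_comp] at hT
  exact Injective.of_comp hT

/-- Nontrivial elements of a free product are given by nonempty reduced lists of letters. -/
theorem lift_injective_of_lists {n : ℕ} {S : Fin n → Type} [∀ i, Group (S i)]
    (N : Subgroup (CoprodI S)) [N.Normal] (I : Finset (Fin n))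
    (h : ∀ L : List (Σ i, S i), L ≠ [] → (∀ z ∈ L, z.2 ≠ 1) → (∀ z ∈ L, z.1 ∈ I) →
      L.IsChain (fun a b => a.1 ≠ b.1) → pr L ∉ N) :
    Injective (CoprodI.lift (M := fun i : I => S i)
      (fun i => (QuotientGroup.mk' N).comp (CoprodI.of (i := (i : Fin n))))) := by
  classical
  rw [injective_iff_map_eq_one]
  intro x hx
  obtain ⟨w, rfl⟩ := CoprodI.Word.equiv.symm.surjective x
  change CoprodI.lift _ w.prod = 1 at hx
  by_contra hne
  change ¬ w.prod = 1 at hne
  let L : List (Σ i, S i) := w.toList.map fun z => ⟨(z.1 : Fin n), z.2⟩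
  have e : CoprodI.lift (M := fun i : I => S i)
      (fun i => (QuotientGroup.mk' N).comp (CoprodI.of (i := (i : Fin n)))) w.prod =
      QuotientGroup.mk' N (pr L) := by
    simp only [CoprodI.Word.prod, pr, L, map_list_prod, List.map_map]
    congr 1
  rw [e, QuotientGroup.mk'_apply, QuotientGroup.eq_one_iff] at hx
  refine h L ?_ ?_ ?_ ?_ hx
  · intro h0
    apply hne
    have h1 : w.toList = [] := by simpa [L] using h0
    simp [CoprodI.Word.prod, h1]
  · intro z hz
    obtain ⟨z', hz', rfl⟩ := List.mem_map.mp hz
    exact w.ne_one z' hz'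
  · intro z hz
    obtain ⟨z', hz', rfl⟩ := List.mem_map.mp hz
    exact z'.1.2
  · have := w.chain_ne
    rw [List.isChain_map]
    refine this.imp ?_
    intro a b hab h
    exact hab (Subtype.ext h)

/-- **Main theorem**, first form: the groups `S i` are abstract groups. -/
theorem main_aux {n m : ℕ} (A : Fin n → Type) [∀ i, Group (A i)]
    (S : Fin n → Type) [∀ i, Group (S i)] (j : ∀ i, S i →* A i) (hj : ∀ i, Injective (j i))
    (r : Fin m → CoprodI S)
    (B : Type) [Group B] [LinearOrder B] [MulLeftMono B] [MulRightMono B]
    (ψ : CoprodI S →* B) (hr : ∀ t, ψ (r t) = 1) (hst : State ψ) :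
    ∃ T : Finset (Fin n), T.card = n - m ∧
      Injective ((QuotientGroup.mk' (Subgroup.normalClosure (Set.range fun t =>
        CoprodI.lift (fun i => (CoprodI.of (M := A)).comp (j i)) (r t)))).comp
        (CoprodI.lift (M := fun i : T => A i) (fun i => CoprodI.of (i := (i : Fin n))))) := by
  classical
  obtain ⟨N, hN, _, hrN, hstN, I, hI, hL⟩ := tower r ψ.ker
    ⟨B, inferInstance, inferInstance, inferInstance, inferInstance, ψ, rfl, hr, hst⟩
  have hIinj := lift_injective_of_lists N I hL
  obtain ⟨P, iP, h, a, _, ha, hinj⟩ := glue A S j hj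
    (fun i => (QuotientGroup.mk' N).comp (CoprodI.of (i := i))) (by
      intro i
      rcases hstN i with h1 | h1
      · left
        rw [injective_iff_map_eq_one]
        intro s hs
        rw [MonoidHom.comp_apply, QuotientGroup.mk'_apply, QuotientGroup.eq_one_iff] at hs
        exact h1 s hs
      · right
        intro s
        rw [MonoidHom.comp_apply, QuotientGroup.mk'_apply, QuotientGroup.eq_one_iff]
        exact h1 s) I hIinj
  refine ⟨I, hI, concl A _ (CoprodI.lift a) ?_ I ?_⟩
  · intro t
    have e : (CoprodI.lift a).comp (CoprodI.lift (fun i => (CoprodI.of (M := A)).comp (j i))) =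
        h.comp (QuotientGroup.mk' N) := by
      apply CoprodI.ext_hom
      intro i
      ext s
      simp only [MonoidHom.comp_apply, CoprodI.lift_of]
      exact ha i s
    have := DFunLike.congr_fun e (r t)
    rw [MonoidHom.comp_apply, MonoidHom.comp_apply] at this
    rw [this, QuotientGroup.mk'_apply, (QuotientGroup.eq_one_iff _).mpr (hrN t), map_one]
  · convert hinj using 3
    ext i x
    simp

/-- **Main theorem**: `A i` are torsion-free groups, `S i` is embedded in `A i`, the relators lie
in the free product of the `S i`. Suppose that there are homomorphisms of the `S i` to a bi-ordered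
group `B` which kill the relators, and each of which is injective, or trivial with commutative
`S i`. Then some `n - m` of the `A i` generate their free product modulo the relators. -/
theorem main {n m : ℕ} (A : Fin n → Type) [∀ i, Group (A i)]
    (tf : ∀ i, ∀ g : A i, g ≠ 1 → ¬ IsOfFinOrder g)
    (S : Fin n → Type) [∀ i, Group (S i)] (j : ∀ i, S i →* A i)
    (hj : ∀ i, Injective (j i)) (r : Fin m → CoprodI S)
    (B : Type) [Group B] [LinearOrder B] [MulLeftMono B] [MulRightMono B]
    (θ : ∀ i, S i →* B) (hθ : ∀ i, Injective (θ i) ∨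
      ((∀ s, θ i s = 1) ∧ ∀ s t : S i, s * t = t * s))
    (hr : ∀ t, CoprodI.lift θ (r t) = 1) :
    ∃ T : Finset (Fin n), T.card = n - m ∧
      Injective ((QuotientGroup.mk' (Subgroup.normalClosure (Set.range fun t =>
        CoprodI.lift (fun i => (CoprodI.of (M := A)).comp (j i)) (r t)))).comp
        (CoprodI.lift (M := fun i : T => A i) (fun i => CoprodI.of (i := (i : Fin n))))) := by
  classical
  -- pass to finitely generated subgroups
  choose F hF using fun t => exists_fg (r t)
  let S' : ∀ i, Subgroup (S i) := fun i =>
    Subgroup.closure ((Finset.univ.biUnion fun t => F t i : Finset (S i)) : Set (S i))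
  have hS'fg : ∀ i, Group.FG (S' i) := by
    intro i
    rw [Group.fg_iff_subgroup_fg]
    exact ⟨_, rfl⟩
  have hr' : ∀ t, ∃ r' : CoprodI (fun i => S' i), incl S' r' = r t := by
    intro t
    exact hF t S' (fun i a ha => Subgroup.subset_closure (by
      rw [Finset.mem_coe, Finset.mem_biUnion]
      exact ⟨t, Finset.mem_univ _, ha⟩))
  choose r' hr' using hr'
  have key := main_aux A (fun i => S' i) (fun i => (j i).comp (S' i).subtype)
    (fun i => (hj i).comp Subtype.val_injective) r' B
    (CoprodI.lift fun i => (θ i).comp (S' i).subtype)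
    (by
      intro t
      have e : (CoprodI.lift θ).comp (incl S') =
          CoprodI.lift fun i => (θ i).comp (S' i).subtype := by
        apply CoprodI.ext_hom
        intro i
        ext s
        simp [incl_of]
      rw [← e, MonoidHom.comp_apply, hr', hr])
    (by
      intro i
      rcases hθ i with h | ⟨h, hc⟩
      · left
        intro s hs
        simp only [CoprodI.lift_of, MonoidHom.comp_apply] at hs
        have := h (hs.trans (map_one (θ i)).symm)
        exact Subtype.ext this
      · right
        refine ⟨fun s => by simp [h], ?_⟩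
        refine exists_real_embedding (S' i) ?_ ?_ (hS'fg i)
        · intro s t
          apply Subtype.ext
          exact hc _ _
        · intro g hg hfin
          apply tf i (j i (g : S i))
          · intro h1
            apply hg
            apply Subtype.ext
            exact hj i (h1.trans (map_one (j i)).symm)
          · rw [isOfFinOrder_iff_pow_eq_one] at hfin ⊢
            obtain ⟨k, hk, hk2⟩ := hfin
            refine ⟨k, hk, ?_⟩
            have h2 := congrArg (fun x : S' i => j i (x : S i)) hk2
            simpa using h2)
  obtain ⟨T, hT, hinj⟩ := key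
  refine ⟨T, hT, ?_⟩
  have e : (fun t => CoprodI.lift (fun i => (CoprodI.of (M := A)).comp
      ((j i).comp (S' i).subtype)) (r' t)) =
      fun t => CoprodI.lift (fun i => (CoprodI.of (M := A)).comp (j i)) (r t) := by
    funext t
    rw [← hr']
    have e2 : CoprodI.lift (fun i => (CoprodI.of (M := A)).comp
      ((j i).comp (S' i).subtype)) =
        (CoprodI.lift (fun i => (CoprodI.of (M := A)).comp (j i))).comp (incl S') := by
      apply CoprodI.ext_hom
      intro i
      ext s
      simp [incl_of]
    rw [e2, MonoidHom.comp_apply]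
  rwa [e] at hinj

end Pool.Agent.Run7.h621
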