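import Mathlib

/-!
# The semidirect product `V ⋊ G` of an ordered abelian group and an ordered group

`G` acts on the ordered abelian group `V` by order-preserving automorphisms. The semidirect product
is again a bi-ordered group (first compare the components in `G`).
-/

set_option autoImplicit false
set_option linter.unusedSectionVars false

namespace Pool.Agent.Run7.h621

/-- The semidirect product `V ⋊ G`. -/
@[ext] structure AffV (V G : Type*) where
  v : V
  g : G

namespace AffV

section grp

variable {V G : Type*} [AddCommGroup V] [Group G] [DistribMulAction G V]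

instance : Mul (AffV V G) := ⟨fun x y => ⟨x.v + x.g • y.v, x.g * y.g⟩⟩
instance : One (AffV V G) := ⟨⟨0, 1⟩⟩
instance : Inv (AffV V G) := ⟨fun x => ⟨-(x.g⁻¹ • x.v), x.g⁻¹⟩⟩

@[simp] theorem mul_v (x y : AffV V G) : (x * y).v = x.v + x.g • y.v := rfl
@[simp] theorem mul_g (x y : AffV V G) : (x * y).g = x.g * y.g := rfl
@[simp] theorem one_v : (1 : AffV V G).v = 0 := rfl
@[simp] theorem one_g : (1 : AffV V G).g = 1 := rfl
@[simp] theorem inv_v (x : AffV V G) : (x⁻¹).v = -(x.g⁻¹ • x.v) := rfl
@[simp] theorem inv_g (x : AffV V G) : (x⁻¹).g = x.g⁻¹ := rfl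

instance : Group (AffV V G) := Group.ofLeftAxioms
  (by
    intro x y z
    ext
    · simp only [mul_v, mul_g, smul_add, mul_smul, add_assoc]
    · simp [mul_assoc])
  (by intro x; ext <;> simp)
  (by intro x; ext <;> simp)

/-- Projection to `G`. -/
def toG : AffV V G →* G where
  toFun := AffV.g
  map_one' := rfl
  map_mul' _ _ := rfl

@[simp] theorem toG_apply (x : AffV V G) : toG x = x.g := rfl

/-- Functoriality in `V`. -/
def map {W : Type*} [AddCommGroup W] [DistribMulAction G W] (q : V →+ W)
    (hq : ∀ (g : G) (v : V), q (g • v) = g • q v) : AffV V G →* AffV W G where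
  toFun x := ⟨q x.v, x.g⟩
  map_one' := by ext <;> simp
  map_mul' x y := by
    ext
    · simp [hq]
    · simp

@[simp] theorem map_v {W : Type*} [AddCommGroup W] [DistribMulAction G W] (q : V →+ W)
    (hq : ∀ (g : G) (v : V), q (g • v) = g • q v) (x : AffV V G) : (map q hq x).v = q x.v := rfl
@[simp] theorem map_g {W : Type*} [AddCommGroup W] [DistribMulAction G W] (q : V →+ W)
    (hq : ∀ (g : G) (v : V), q (g • v) = g • q v) (x : AffV V G) : (map q hq x).g = x.g := rfl

end grp

section ord

variable {V G : Type*} [AddCommGroup V] [LinearOrder V] [IsOrderedAddMonoid V]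
  [Group G] [LinearOrder G] [MulLeftMono G] [MulRightMono G] [DistribMulAction G V]

/-- lexicographic coordinates -/
def key (x : AffV V G) : G ×ₗ V := toLex (x.g, x.v)

omit [AddCommGroup V] [LinearOrder V] [IsOrderedAddMonoid V] [Group G] [LinearOrder G]
  [MulLeftMono G] [MulRightMono G] [DistribMulAction G V] in
theorem key_inj : Function.Injective (key (V := V) (G := G)) := by
  intro x y h
  simp only [key, toLex_inj, Prod.mk.injEq] at h
  exact AffV.ext h.2 h.1

noncomputable instance : LinearOrder (AffV V G) := LinearOrder.lift' key key_inj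

omit [AddCommGroup V] [IsOrderedAddMonoid V] [Group G] [MulLeftMono G] [MulRightMono G]
  [DistribMulAction G V] in
theorem lt_iff (x y : AffV V G) : x < y ↔ x.g < y.g ∨ (x.g = y.g ∧ x.v < y.v) := by
  change key x < key y ↔ _
  simp only [key, Prod.Lex.toLex_lt_toLex]

theorem mul_lt_left (hs : ∀ (g : G) (v w : V), v < w → g • v < g • w)
    (z : AffV V G) {x y : AffV V G} (h : x < y) : z * x < z * y := by
  rw [lt_iff] at h ⊢
  rcases h with h | ⟨e1, h⟩
  · left
    simp only [mul_g]
    exact mul_lt_mul_right h z.g
  · right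
    refine ⟨by simp [e1], ?_⟩
    simp only [mul_v]
    exact add_lt_add_right (hs _ _ _ h) _

theorem mul_lt_right (z : AffV V G) {x y : AffV V G} (h : x < y) : x * z < y * z := by
  rw [lt_iff] at h ⊢
  rcases h with h | ⟨e1, h⟩
  · left
    simp only [mul_g]
    exact mul_lt_mul_left h z.g
  · right
    refine ⟨by simp [e1], ?_⟩
    simp only [mul_v, e1]
    exact add_lt_add_left h _

theorem mulLeftMono (hs : ∀ (g : G) (v w : V), v < w → g • v < g • w) :
    MulLeftMono (AffV V G) := ⟨by
  intro z x y h
  rcases h.eq_or_lt with h | h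
  · rw [h]
  · exact (mul_lt_left hs z h).le⟩

instance : MulRightMono (AffV V G) := ⟨by
  intro z x y h
  rcases h.eq_or_lt with h | h
  · rw [h]
  · exact (mul_lt_right z h).le⟩

end ord

end AffV

end Pool.Agent.Run7.h621
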