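import Mathlib

/-!
# Definitions used in the statements
-/

set_option autoImplicit false

namespace Pool.Agent.Run7.h621

/-- The free product of the groups `A i` (Mathlib's `Monoid.CoprodI`). -/
def FP {ι : Type} (A : ι → Type) [∀ i, Group (A i)] : Type := Monoid.CoprodI A

instance FP.group {ι : Type} (A : ι → Type) [∀ i, Group (A i)] : Group (FP A) :=
  inferInstanceAs (Group (Monoid.CoprodI A))

/-- The homomorphism of the free product of the `A i` to a group `H` which extends the given
homomorphisms `f i` of the factors (Mathlib's `Monoid.CoprodI.lift`). -/
def FP.lift {ι : Type} {A : ι → Type} [∀ i, Group (A i)] {H : Type} [Group H]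
    (f : ∀ i, A i →* H) : FP A →* H := Monoid.CoprodI.lift f

/-- The inclusion of a factor in the free product (Mathlib's `Monoid.CoprodI.of`). -/
def FP.of {ι : Type} {A : ι → Type} [∀ i, Group (A i)] (i : ι) : A i →* FP A :=
  Monoid.CoprodI.of (i := i)

/-- The homomorphism of free products given by homomorphisms `j i` of the factors. -/
def FP.map {ι : Type} {S A : ι → Type} [∀ i, Group (S i)] [∀ i, Group (A i)]
    (j : ∀ i, S i →* A i) : FP S →* FP A :=
  FP.lift fun i => (FP.of i).comp (j i)

/-- The normal closure of the relators. -/
def FP.nc {ι κ : Type} {A : ι → Type} [∀ i, Group (A i)] (r : κ → FP A) : Subgroup (FP A) :=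
  Subgroup.normalClosure (Set.range r)

/-- The family of the `A i` with `i ∈ T`. -/
def Part {n : ℕ} (A : Fin n → Type) (T : Finset (Fin n)) (i : T) : Type := A i

instance Part.group {n : ℕ} (A : Fin n → Type) [∀ i, Group (A i)] (T : Finset (Fin n)) (i : T) :
    Group (Part A T i) := inferInstanceAs (Group (A i))

/-- The natural homomorphism from the free product of the `A i`, `i ∈ T`, to the free product of
all `A i`, as a map. -/
def FP.part {n : ℕ} (A : Fin n → Type) [∀ i, Group (A i)] (T : Finset (Fin n))
    (x : FP (Part A T)) : FP A :=
  FP.lift (A := Part A T) (H := FP A) (fun i => (FP.of (i : Fin n) : A i →* FP A)) x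

/-- The conclusion of the Freiheitssatz for the groups `A i` and the relators `r`: for some set `T`
of `n - m` indices the free product of the `A i`, `i ∈ T`, embeds into the quotient of the free
product of all `A i` by the normal closure of the relators, that is, the natural homomorphism from
the free product of the `A i`, `i ∈ T`, to the free product of all `A i` maps only `1` into the
normal closure of the relators. -/
def SomeEmbed {n m : ℕ} (A : Fin n → Type) [∀ i, Group (A i)] (r : Fin m → FP A) : Prop :=
  ∃ T : Finset (Fin n), T.card = n - m ∧ ∀ x, FP.part A T x ∈ FP.nc r → x = 1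

end Pool.Agent.Run7.h621
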