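import Pool.Agent.Run7.h621.Inv

set_option autoImplicit false
set_option linter.unusedSectionVars false

namespace Pool.Agent.Run7.h621

open Set Function
open scoped Pointwise

namespace MN

variable {G : Type*} [Group G] [LinearOrder G] [MulLeftMono G] [MulRightMono G]

theorem one_ne_zero' : (1 : MN G) ≠ 0 := by
  intro h
  have h1 : (1 : MN G).c 1 = (0 : MN G).c 1 := by rw [h]
  rw [one_def, single_same, zero_c] at h1
  exact one_ne_zero h1

open Classical in
noncomputable def invFun (f : MN G) : MN G :=
  if h : f = 0 then 0 else (ex_inv f h).choose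

theorem mul_invFun (f : MN G) (hf : f ≠ 0) : f * invFun f = 1 := by
  rw [invFun, dif_neg hf]
  exact (ex_inv f hf).choose_spec

noncomputable instance : DivisionRing (MN G) :=
  { (inferInstance : Ring (MN G)) with
    inv := invFun
    exists_pair_ne := ⟨1, 0, one_ne_zero'⟩
    mul_inv_cancel := mul_invFun
    inv_zero := by
      change invFun 0 = 0
      rw [invFun, dif_pos rfl]
    nnqsmul := _
    nnqsmul_def := fun _ _ => rfl
    qsmul := _
    qsmul_def := fun _ _ => rfl }

def pos (f : MN G) : Prop := ∃ g : G, 0 < f.c g ∧ ∀ x, x < g → f.c x = 0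

theorem pos_add {f g : MN G} (hf : pos f) (hg : pos g) : pos (f + g) := by
  obtain ⟨a, ha, ha'⟩ := hf
  obtain ⟨b, hb, hb'⟩ := hg
  rcases lt_trichotomy a b with h | h | h
  · exact ⟨a, by rw [add_c, hb' a h, add_zero]; exact ha, fun x hx => by
      rw [add_c, ha' x hx, hb' x (hx.trans h), add_zero]⟩
  · subst h
    exact ⟨a, by rw [add_c]; exact add_pos ha hb, fun x hx => by
      rw [add_c, ha' x hx, hb' x hx, add_zero]⟩
  · exact ⟨b, by rw [add_c, ha' b h, zero_add]; exact hb, fun x hx => by
      rw [add_c, ha' x (hx.trans h), hb' x hx, add_zero]⟩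

theorem pos_mul {f g : MN G} (hf : pos f) (hg : pos g) : pos (f * g) := by
  obtain ⟨a, ha, ha'⟩ := hf
  obtain ⟨b, hb, hb'⟩ := hg
  refine ⟨a * b, ?_, ?_⟩
  · rw [mul_c, finsum_eq_single _ a]
    · rw [inv_mul_cancel_left]; exact mul_pos ha hb
    · intro c hc
      rcases lt_or_gt_of_ne hc with h | h
      · rw [ha' c h, zero_mul]
      · rw [hb' _ _, mul_zero]
        rw [← mul_assoc]
        calc c⁻¹ * a * b < 1 * b := by
              apply mul_lt_mul_left
              rw [inv_mul_lt_iff_lt_mul, mul_one]
              exact h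
          _ = b := one_mul b
  · intro x hx
    rw [mul_c]
    apply finsum_eq_zero_of_forall_eq_zero
    intro c
    rcases lt_or_ge c a with h | h
    · rw [ha' c h, zero_mul]
    · rw [hb' _ _, mul_zero]
      rw [inv_mul_lt_iff_lt_mul]
      calc x < a * b := hx
        _ ≤ c * b := mul_le_mul_left h b

theorem not_pos_zero : ¬ pos (0 : MN G) := by
  rintro ⟨a, ha, _⟩
  exact lt_irrefl _ ha

theorem pos_or (f : MN G) (hf : f ≠ 0) : pos f ∨ pos (-f) := by
  obtain ⟨g, hg, hlt⟩ := ex_lead f hf
  rcases lt_or_gt_of_ne hg with h | h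
  · right
    exact ⟨g, by rw [neg_c]; linarith, fun x hx => by rw [neg_c, hlt x hx, neg_zero]⟩
  · left
    exact ⟨g, h, hlt⟩

theorem pos_asymm {f : MN G} (h1 : pos f) (h2 : pos (-f)) : False := by
  have := pos_add h1 h2
  rw [add_neg_cancel] at this
  exact not_pos_zero this

noncomputable instance : LinearOrder (MN G) where
  le f g := f = g ∨ pos (g - f)
  lt f g := pos (g - f)
  le_refl f := Or.inl rfl
  le_trans f g h := by
    rintro (h1 | h1) (h2 | h2)
    · left; rw [h1, h2]
    · right; rw [h1]; exact h2
    · right; rw [← h2]; exact h1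
    · right
      have := pos_add h1 h2
      rwa [show g - f + (h - g) = h - f by abel] at this
  le_antisymm f g := by
    rintro (h1 | h1) (h2 | h2)
    · exact h1
    · exact h1
    · exact h2.symm
    · exfalso
      rw [show f - g = -(g - f) by abel] at h2
      exact pos_asymm h1 h2
  lt_iff_le_not_ge f g := by
    constructor
    · intro h
      refine ⟨Or.inr h, ?_⟩
      rintro (h1 | h1)
      · change pos (g - f) at h
        rw [h1, sub_self] at h
        exact not_pos_zero h
      · change pos (g - f) at h
        rw [show f - g = -(g - f) by abel] at h1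
        exact pos_asymm h h1
    · rintro ⟨h1 | h1, h2⟩
      · exact absurd (Or.inl h1.symm) h2
      · exact h1
  le_total f g := by
    by_cases h : f = g
    · left; left; exact h
    · rcases pos_or (g - f) (sub_ne_zero.mpr (Ne.symm h)) with h1 | h1
      · left; right; exact h1
      · right; right
        rwa [show f - g = -(g - f) by abel]
  toDecidableLE := Classical.decRel _

theorem lt_def (f g : MN G) : f < g ↔ pos (g - f) := Iff.rfl
theorem le_def (f g : MN G) : f ≤ g ↔ (f = g ∨ pos (g - f)) := Iff.rfl

instance : IsOrderedAddMonoid (MN G) where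
  add_le_add_left f g h k := by
    rw [le_def] at h ⊢
    rcases h with h | h
    · left; rw [h]
    · right
      simpa using h

theorem one_pos' : (0 : MN G) < 1 := by
  rw [lt_def, sub_zero]
  refine ⟨1, ?_, ?_⟩
  · rw [one_def, single_same]; exact one_pos
  · intro x hx
    exact single_ne _ _ _ hx.ne

instance : IsStrictOrderedRing (MN G) := by
  have : ZeroLEOneClass (MN G) := ⟨one_pos'.le⟩
  have : Nontrivial (MN G) := ⟨1, 0, one_ne_zero'⟩
  refine IsStrictOrderedRing.of_mul_pos ?_
  intro a b ha hb
  rw [lt_def, sub_zero] at ha hb ⊢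
  exact pos_mul ha hb

theorem single_pos (g : G) : (0 : MN G) < single g 1 := by
  rw [lt_def, sub_zero]
  refine ⟨g, ?_, ?_⟩
  · rw [single_same]; exact one_pos
  · intro x hx
    exact single_ne _ _ _ hx.ne

theorem single_lt (g h : G) (hgh : g < h) : (single h 1 : MN G) < single g 1 := by
  rw [lt_def]
  refine ⟨g, ?_, ?_⟩
  · rw [sub_c, single_same, single_ne _ _ _ hgh.ne, sub_zero]; exact one_pos
  · intro x hx
    rw [sub_c, single_ne _ _ _ hx.ne, single_ne _ _ _ (hx.trans hgh).ne, sub_zero]

end MN

end Pool.Agent.Run7.h621
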