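import Pool.Agent.Run7.h621.Ord
import Pool.Agent.Run7.h621.AffV

/-!
# One step of the tower

`ψ` is a homomorphism of the free product of the groups `S i` to a bi-ordered group `G`, with the
property that it is injective or trivial on each `S i`. We pass to a homomorphism `ψ'` to a bigger
bi-ordered group with a smaller kernel.
-/

set_option autoImplicit false
set_option linter.unusedSectionVars false

namespace Pool.Agent.Run7.h621

open Monoid

namespace MN

variable {G : Type*} [Group G] [LinearOrder G] [MulLeftMono G] [MulRightMono G]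

/-- group elements as series -/
noncomputable def sing : G →* MN G where
  toFun g := single g 1
  map_one' := rfl
  map_mul' g h := by rw [single_mul_single, mul_one]

theorem sing_apply (g : G) : sing g = single g 1 := rfl

theorem single_add (g : G) (a b : ℝ) : single g (a + b) = single g a + single g b := by
  ext x
  by_cases h : x = g
  · subst h; simp
  · rw [add_c, single_ne _ _ _ h, single_ne _ _ _ h, single_ne _ _ _ h, add_zero]

theorem sing_c_one (g : G) (hg : g ≠ 1) : (sing g : MN G).c 1 = 0 :=
  single_ne _ _ _ (Ne.symm hg)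

theorem one_c_one : (1 : MN G).c 1 = 1 := by rw [one_def, single_same]

end MN

/-- The action of `G` on a vector space over `MN G`. -/
noncomputable abbrev act (G : Type*) [Group G] [LinearOrder G] [MulLeftMono G] [MulRightMono G]
    (V : Type*) [AddCommGroup V] [Module (MN G) V] : DistribMulAction G V :=
  DistribMulAction.compHom V (MN.sing : G →* MN G)

section letters

variable {n : ℕ} {S : Fin n → Type} [∀ i, Group (S i)]

/-- The product of a list of letters. -/
def pr (L : List (Σ i, S i)) : CoprodI S := (L.map fun z => CoprodI.of z.2).prod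

@[simp] theorem pr_nil : pr (S := S) [] = 1 := rfl
@[simp] theorem pr_cons (z : Σ i, S i) (L : List (Σ i, S i)) :
    pr (z :: L) = CoprodI.of z.2 * pr L := by simp [pr]
@[simp] theorem pr_append (L L' : List (Σ i, S i)) : pr (L ++ L') = pr L * pr L' := by
  simp [pr]

end letters

section crossed

variable {n : ℕ} {S : Fin n → Type} [∀ i, Group (S i)]
  {G : Type} [Group G] [LinearOrder G] [MulLeftMono G] [MulRightMono G]
  (ψ : CoprodI S →* G) (c : ∀ i, S i → MN G)
  (hc : ∀ i s t, c i (s * t) = c i s + MN.sing (ψ (CoprodI.of s)) * c i t)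

attribute [local instance] act

/-- The homomorphism given by the crossed homomorphism with components `c i`. -/
noncomputable def Phi : CoprodI S →* AffV (Fin n → MN G) G :=
  CoprodI.lift fun i =>
    MonoidHom.mk' (fun s => (⟨Pi.single i (c i s), ψ (CoprodI.of s)⟩ : AffV (Fin n → MN G) G))
      (by
        intro s t
        apply AffV.ext
        · rw [AffV.mul_v]
          change Pi.single i (c i (s * t)) = Pi.single i (c i s) +
            (MN.sing (ψ (CoprodI.of s)) : MN G) • (Pi.single i (c i t) : Fin n → MN G)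
          rw [hc, Pi.single_add]
          congr 1
          ext j : 1
          by_cases h : j = i
          · subst h; simp
          · simp [Pi.single_eq_of_ne h]
        · simp)

theorem Phi_of (i : Fin n) (s : S i) :
    Phi ψ c hc (CoprodI.of s) = ⟨Pi.single i (c i s), ψ (CoprodI.of s)⟩ := by
  simp [Phi]

theorem Phi_g (x : CoprodI S) : (Phi ψ c hc x).g = ψ x := by
  have h : (AffV.toG (V := Fin n → MN G)).comp (Phi ψ c hc) = ψ := by
    apply CoprodI.ext_hom
    intro i
    ext s
    simp [Phi_of]
  have := DFunLike.congr_fun h x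
  simpa using this

theorem Phi_mul_v (x y : CoprodI S) : (Phi ψ c hc (x * y)).v =
    (Phi ψ c hc x).v + MN.sing (ψ x) • (Phi ψ c hc y).v := by
  rw [map_mul, AffV.mul_v]
  have : (Phi ψ c hc x).g • (Phi ψ c hc y).v = MN.sing (Phi ψ c hc x).g • (Phi ψ c hc y).v := rfl
  rw [this, Phi_g]

/-- letters outside `I` do not occur: zero coordinates -/
theorem Phi_supp (I : Finset (Fin n)) (L : List (Σ i, S i)) (hL : ∀ z ∈ L, z.1 ∈ I)
    (i : Fin n) (hi : i ∉ I) : (Phi ψ c hc (pr L)).v i = 0 := by
  induction L with
  | nil => simp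
  | cons z L ih =>
    rw [pr_cons, Phi_mul_v, Pi.add_apply, Pi.smul_apply,
      ih (fun z hz => hL z (List.mem_cons_of_mem _ hz)), smul_zero, add_zero, Phi_of]
    have : i ≠ z.1 := by
      intro h
      exact hi (h ▸ hL z List.mem_cons_self)
    exact Pi.single_eq_of_ne this _

/-- The key coefficient. -/
theorem Phi_coef (x : Σ i, S i) (L : List (Σ i, S i))
    (hlet : ∀ z ∈ x :: L, c z.1 z.2 = MN.sing (ψ (CoprodI.of z.2)) - 1)
    (hini : ∀ L' L'' : List (Σ i, S i), L = L' ++ L'' → ψ (pr (x :: L')) ≠ 1) :
    ((Phi ψ c hc (pr (x :: L))).v x.1).c 1 = -1 := by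
  induction L using List.reverseRecOn with
  | nil =>
    have h1 : ψ (CoprodI.of x.2) ≠ 1 := by
      have := hini [] [] rfl
      simpa using this
    rw [pr_cons, pr_nil, mul_one, Phi_of]
    simp only [Pi.single_eq_same]
    rw [hlet x List.mem_cons_self, MN.sub_c, MN.sing_c_one _ h1, MN.one_c_one, zero_sub]
  | append_singleton L z ih =>
    have e : pr (x :: (L ++ [z])) = pr (x :: L) * CoprodI.of z.2 := by
      rw [← List.cons_append, pr_append, pr_cons z, pr_nil, mul_one]
    have hp : ψ (pr (x :: L)) ≠ 1 := hini L [z] rfl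
    have hpz : ψ (pr (x :: L)) * ψ (CoprodI.of z.2) ≠ 1 := by
      have := hini (L ++ [z]) [] (by simp)
      rwa [e, map_mul] at this
    rw [e, Phi_mul_v, Pi.add_apply, MN.add_c, ih
      (fun w hw => hlet w (by
        rcases List.mem_cons.mp hw with h | h
        · rw [h]; exact List.mem_cons_self
        · exact List.mem_cons_of_mem _ (List.mem_append_left _ h)))
      (fun L' L'' h => hini L' (L'' ++ [z]) (by rw [h, List.append_assoc]))]
    rw [Pi.smul_apply, Phi_of]
    simp only [smul_eq_mul]
    by_cases h : z.1 = x.1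
    · rw [← h, Pi.single_eq_same, hlet z (by simp), mul_sub, mul_one, ← map_mul, MN.sub_c,
        MN.sing_c_one _ hp, MN.sing_c_one _ hpz, sub_zero, add_zero]
    · rw [Pi.single_eq_of_ne (Ne.symm h), mul_zero, MN.zero_c, add_zero]

theorem Phi_coef' (x : Σ i, S i) (L : List (Σ i, S i)) (y : Σ i, S i) (hxy : y.1 ≠ x.1)
    (hlet : ∀ z ∈ x :: L, c z.1 z.2 = MN.sing (ψ (CoprodI.of z.2)) - 1)
    (hini : ∀ L' L'' : List (Σ i, S i), L = L' ++ L'' → ψ (pr (x :: L')) ≠ 1) :
    (Phi ψ c hc (pr (x :: (L ++ [y])))).v x.1 ≠ 0 := by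
  intro h0
  have e : pr (x :: (L ++ [y])) = pr (x :: L) * CoprodI.of y.2 := by
    rw [← List.cons_append, pr_append, pr_cons y, pr_nil, mul_one]
  rw [e, Phi_mul_v, Pi.add_apply, Pi.smul_apply, Phi_of] at h0
  simp only [smul_eq_mul] at h0
  rw [Pi.single_eq_of_ne (Ne.symm hxy), mul_zero, add_zero] at h0
  have := Phi_coef ψ c hc x L hlet hini
  rw [h0, MN.zero_c] at this
  norm_num at this

end crossed

end Pool.Agent.Run7.h621
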