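import Pool.Agent.Run7.h621.Step

/-!
# One step of the tower, continued
-/

set_option autoImplicit false
set_option linter.unusedSectionVars false

namespace Pool.Agent.Run7.h621

open Monoid

attribute [local instance] act

section lex

variable {G : Type} [Group G] [LinearOrder G] [MulLeftMono G] [MulRightMono G]

theorem sing_smul_lt (k : ℕ) (g : G) (v w : Lex (Fin k → MN G)) (h : v < w) : g • v < g • w := by
  obtain ⟨i, h1, h2⟩ := h
  refine ⟨i, ?_, ?_⟩
  · intro j hj
    change MN.sing g * v j = MN.sing g * w j
    have := h1 j hj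
    change v j = w j at this
    rw [this]
  · change MN.sing g * v i < MN.sing g * w i
    exact mul_lt_mul_of_pos_left h2 (MN.single_pos g)

instance lexMono (k : ℕ) : MulLeftMono (AffV (Lex (Fin k → MN G)) G) :=
  AffV.mulLeftMono (fun g v w h => sing_smul_lt k g v w h)

end lex

/-- linear algebra: the quotient of `D^n` by the span of `m` vectors. -/
theorem quot_basis {D : Type} [DivisionRing D] (n m : ℕ) (w : Fin m → (Fin n → D)) :
    ∃ (k : ℕ) (q : (Fin n → D) →ₗ[D] (Fin k → D)) (I : Finset (Fin n)),
      I.card = n - m ∧ (∀ j, q (w j) = 0) ∧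
      (∀ v : Fin n → D, (∀ i, i ∉ I → v i = 0) → q v = 0 → v = 0) := by
  classical
  let W : Submodule D (Fin n → D) := Submodule.span D (Set.range w)
  have hW : Module.finrank D W ≤ m := by
    have := finrank_range_le_card (R := D) w
    simpa [W, Set.finrank] using this
  have hQ : Module.finrank D ((Fin n → D) ⧸ W) + Module.finrank D W = n := by
    rw [Submodule.finrank_quotient_add_finrank]
    simp
  let e : Fin n → ((Fin n → D) ⧸ W) := fun i => W.mkQ (Pi.single i 1)
  have hspan : Submodule.span D (Set.range e) = ⊤ := by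
    have h1 : Submodule.span D (Set.range fun i : Fin n => (Pi.single i 1 : Fin n → D)) = ⊤ := by
      have := (Pi.basisFun D (Fin n)).span_eq
      convert this using 2
      ext v
      simp
    have h2 : Set.range e = W.mkQ '' (Set.range fun i : Fin n => (Pi.single i 1 : Fin n → D)) := by
      rw [← Set.range_comp]; rfl
    rw [h2, Submodule.span_image, h1, Submodule.map_top, Submodule.range_mkQ]
  obtain ⟨κ, a, ha, hs, hli⟩ := exists_linearIndependent' D e
  have : Finite κ := Finite.of_injective a ha
  have : Fintype κ := Fintype.ofFinite κ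
  have hcard : n - m ≤ Fintype.card κ := by
    have hb : Module.finrank D ((Fin n → D) ⧸ W) = Fintype.card κ := by
      have hs' : ⊤ ≤ Submodule.span D (Set.range (e ∘ a)) := by rw [hs, hspan]
      exact Module.finrank_eq_card_basis (Module.Basis.mk hli hs')
    omega
  obtain ⟨I, hIsub, hI⟩ := Finset.exists_subset_card_eq (s := Finset.univ.image a) (n := n - m) (by
    rw [Finset.card_image_of_injective _ ha, Finset.card_univ]; exact hcard)
  refine ⟨Module.finrank D ((Fin n → D) ⧸ W),
    (Module.finBasis D ((Fin n → D) ⧸ W)).equivFun.toLinearMap ∘ₗ W.mkQ, I, hI, ?_, ?_⟩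
  · intro j
    have : W.mkQ (w j) = 0 := by
      rw [Submodule.mkQ_apply, Submodule.Quotient.mk_eq_zero]
      exact Submodule.subset_span ⟨j, rfl⟩
    rw [LinearMap.comp_apply, this, map_zero]
  · intro v hv hq
    rw [LinearMap.comp_apply] at hq
    have hq' : W.mkQ v = 0 := by
      have := (Module.finBasis D ((Fin n → D) ⧸ W)).equivFun.map_eq_zero_iff.mp hq
      exact this
    have hsum : ∑ i, v i • e i = 0 := by
      rw [← hq']
      conv_rhs => rw [show v = ∑ i, v i • (Pi.single i 1 : Fin n → D) by
        ext j; simp [Finset.sum_apply, Pi.single_apply]]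
      rw [map_sum]
      simp [e]
    -- restrict to the image of `a`
    have hsum2 : ∑ t : κ, v (a t) • (e ∘ a) t = 0 := by
      rw [← hsum]
      have : ∑ t : κ, v (a t) • (e ∘ a) t = ∑ i ∈ Finset.univ.image a, v i • e i := by
        rw [Finset.sum_image (fun x _ y _ h => ha h)]
        rfl
      rw [this]
      apply Finset.sum_subset (Finset.subset_univ _)
      intro i _ hi
      rw [hv i (fun h => hi (hIsub h)), zero_smul]
    have hz := Fintype.linearIndependent_iff.mp hli (fun t => v (a t)) hsum2
    ext i
    by_cases hi : i ∈ I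
    · obtain ⟨t, _, ht⟩ := Finset.mem_image.mp (hIsub hi)
      rw [← ht]; exact hz t
    · exact hv i hi

/-- The state of a homomorphism on the factors: it is injective on the factor, or it is trivial on
the factor and the factor is embeddable in the real numbers. -/
def State {n : ℕ} {S : Fin n → Type} [∀ i, Group (S i)] {G : Type} [Group G]
    (ψ : CoprodI S →* G) : Prop :=
  ∀ i, (∀ s : S i, ψ (CoprodI.of s) = 1 → s = 1) ∨
    ((∀ s : S i, ψ (CoprodI.of s) = 1) ∧
      ∃ l : S i → ℝ, Function.Injective l ∧ ∀ s t, l (s * t) = l s + l t)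

/-- `N` is the kernel of a homomorphism to a bi-ordered group, with the above state, and contains
the relators. -/
def Good {n m : ℕ} {S : Fin n → Type} [∀ i, Group (S i)] (r : Fin m → CoprodI S)
    (N : Subgroup (CoprodI S)) : Prop :=
  ∃ (G : Type) (_ : Group G) (_ : LinearOrder G) (_ : MulLeftMono G) (_ : MulRightMono G)
    (ψ : CoprodI S →* G), ψ.ker = N ∧ (∀ j, ψ (r j) = 1) ∧ State ψ

theorem step {n m : ℕ} {S : Fin n → Type} [∀ i, Group (S i)] (r : Fin m → CoprodI S)
    (N : Subgroup (CoprodI S)) (hN : Good r N) :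
    ∃ N' : Subgroup (CoprodI S), N' ≤ N ∧ Good r N' ∧ ∃ I : Finset (Fin n), I.card = n - m ∧
      (∀ i ∈ I, ∀ s : S i, CoprodI.of s ∈ N' → s = 1) ∧
      (∀ (x : Σ i, S i) (L : List (Σ i, S i)) (y : Σ i, S i), y.1 ≠ x.1 →
        (∀ z ∈ x :: (L ++ [y]), z.1 ∈ I) → (∀ z ∈ x :: L, CoprodI.of z.2 ∉ N) →
        (∀ L' L'' : List (Σ i, S i), L = L' ++ L'' → pr (x :: L') ∉ N) →
        pr (x :: (L ++ [y])) ∉ N') := by
  classical
  obtain ⟨G, iG, iO, iL, iR, ψ, hker, hr, hst⟩ := hN
  -- the crossed homomorphism
  have hcex : ∀ i, ∃ c : S i → MN G,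
      (∀ s t, c (s * t) = c s + MN.sing (ψ (CoprodI.of s)) * c t) ∧
      ((∀ s : S i, ψ (CoprodI.of s) = 1 → s = 1) → ∀ s, c s = MN.sing (ψ (CoprodI.of s)) - 1) ∧
      ((¬ ∀ s : S i, ψ (CoprodI.of s) = 1 → s = 1) → ∀ s, c s = 0 → s = 1) := by
    intro i
    rcases hst i with h | ⟨h, l, hl, hadd⟩
    · refine ⟨fun s => MN.sing (ψ (CoprodI.of s)) - 1, ?_, fun _ _ => rfl, fun h' => absurd h h'⟩
      intro s t
      beta_reduce
      rw [map_mul, map_mul, map_mul, mul_sub, mul_one]
      abel
    · by_cases hinj : ∀ s : S i, ψ (CoprodI.of s) = 1 → s = 1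
      · refine ⟨fun s => MN.sing (ψ (CoprodI.of s)) - 1, ?_, fun _ _ => rfl,
          fun h' => absurd hinj h'⟩
        intro s t
        beta_reduce
        rw [map_mul, map_mul, map_mul, mul_sub, mul_one]
        abel
      · refine ⟨fun s => MN.single 1 (l s), ?_, fun h' => absurd h' hinj, ?_⟩
        · intro s t
          beta_reduce
          rw [h s, map_one, one_mul, hadd, MN.single_add]
        · intro _ s hs
          have h0 : l s = 0 := by
            have := congrArg (fun f => MN.c f 1) hs
            simpa using this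
          have h1 : l 1 = 0 := by
            have := hadd 1 1
            rw [mul_one] at this
            linarith
          exact hl (h0.trans h1.symm)
  choose c hc hcinj hctriv using hcex
  obtain ⟨k, q, I, hI, hq, hind⟩ := quot_basis (D := MN G) n m (fun j => (Phi ψ c hc (r j)).v)
  -- the map to the ordered group
  let q' : (Fin n → MN G) →+ Lex (Fin k → MN G) := q.toAddMonoidHom
  have hq' : ∀ (g : G) (v : Fin n → MN G), q' (g • v) = g • q' v := by
    intro g v
    change q (MN.sing g • v) = MN.sing g • q v
    rw [map_smul]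
  let ψ' : CoprodI S →* AffV (Lex (Fin k → MN G)) G := (AffV.map q' hq').comp (Phi ψ c hc)
  have hψg : ∀ x, (ψ' x).g = ψ x := fun x => by
    change (Phi ψ c hc x).g = ψ x
    exact Phi_g ψ c hc x
  have hψv : ∀ x, (ψ' x).v = q (Phi ψ c hc x).v := fun x => rfl
  have hone : ∀ x, ψ' x = 1 ↔ (ψ x = 1 ∧ q (Phi ψ c hc x).v = 0) := by
    intro x
    constructor
    · intro h
      refine ⟨by rw [← hψg, h]; rfl, by rw [← hψv, h]; rfl⟩
    · rintro ⟨h1, h2⟩
      apply AffV.ext
      · rw [hψv, h2]; rfl
      · rw [hψg, h1]; rfl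
  have hsingle : ∀ (i : Fin n) (d : MN G), i ∈ I → q (Pi.single i d) = 0 → d = 0 := by
    intro i d hi h
    have := hind (Pi.single i d) (fun j hj => Pi.single_eq_of_ne (by
      rintro rfl
      exact hj hi) _) h
    have h2 := congrFun this i
    simpa using h2
  refine ⟨ψ'.ker, ?_, ⟨AffV (Lex (Fin k → MN G)) G, inferInstance, inferInstance, inferInstance,
    inferInstance, ψ', rfl, ?_, ?_⟩, I, hI, ?_, ?_⟩
  · intro x hx
    rw [MonoidHom.mem_ker] at hx
    rw [← hker, MonoidHom.mem_ker]
    exact ((hone x).mp hx).1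
  · intro j
    exact (hone _).mpr ⟨hr j, hq j⟩
  · intro i
    by_cases hinj : ∀ s : S i, ψ (CoprodI.of s) = 1 → s = 1
    · left
      intro s hs
      exact hinj s ((hone _).mp hs).1
    · rcases hst i with h | ⟨h, hl⟩
      · exact absurd h hinj
      · by_cases he : q (Pi.single i 1) = 0
        · right
          refine ⟨fun s => (hone _).mpr ⟨h s, ?_⟩, hl⟩
          rw [Phi_of]
          change q (Pi.single i (c i s)) = 0
          have : (Pi.single i (c i s) : Fin n → MN G) = c i s • Pi.single i 1 := by
            rw [← Pi.single_smul]; simp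
          rw [this, map_smul, he, smul_zero]
        · left
          intro s hs
          have h2 := ((hone _).mp hs).2
          rw [Phi_of] at h2
          change q (Pi.single i (c i s)) = 0 at h2
          have : (Pi.single i (c i s) : Fin n → MN G) = c i s • Pi.single i 1 := by
            rw [← Pi.single_smul]; simp
          rw [this, map_smul, smul_eq_zero] at h2
          rcases h2 with h2 | h2
          · exact hctriv i hinj s h2
          · exact absurd h2 he
  · intro i hi s hs
    rw [MonoidHom.mem_ker] at hs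
    obtain ⟨h1, h2⟩ := (hone _).mp hs
    by_cases hinj : ∀ s : S i, ψ (CoprodI.of s) = 1 → s = 1
    · exact hinj s h1
    · rw [Phi_of] at h2
      exact hctriv i hinj s (hsingle i _ hi h2)
  · intro x L y hxy hmem hlet hini hmemker
    rw [MonoidHom.mem_ker] at hmemker
    have h2 := ((hone _).mp hmemker).2
    have h3 := hind _ (fun i hi => Phi_supp ψ c hc I (x :: (L ++ [y])) hmem i hi) h2
    refine Phi_coef' ψ c hc x L y hxy ?_ ?_ (congrFun h3 x.1)
    · intro z hz
      apply hcinj
      have hz' := hlet z hz
      rw [← hker, MonoidHom.mem_ker] at hz'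
      rcases hst z.1 with h | ⟨h, _⟩
      · exact h
      · exact absurd (h z.2) hz'
    · intro L' L'' h
      have := hini L' L'' h
      rwa [← hker, MonoidHom.mem_ker] at this

end Pool.Agent.Run7.h621
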