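import Pool.Agent.Run7.h621.Step2

/-!
# The tower
-/

set_option autoImplicit false
set_option linter.unusedSectionVars false

namespace Pool.Agent.Run7.h621

open Monoid

theorem good_normal {n m : ℕ} {S : Fin n → Type} [∀ i, Group (S i)] {r : Fin m → CoprodI S}
    {N : Subgroup (CoprodI S)} (h : Good r N) : N.Normal := by
  obtain ⟨G, _, _, _, _, ψ, hker, _, _⟩ := h
  rw [← hker]
  infer_instance

theorem tower {n m : ℕ} {S : Fin n → Type} [∀ i, Group (S i)] (r : Fin m → CoprodI S)
    (N0 : Subgroup (CoprodI S)) (hN0 : Good r N0) :
    ∃ N : Subgroup (CoprodI S), N.Normal ∧ N ≤ N0 ∧ (∀ j, r j ∈ N) ∧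
      (∀ i, (∀ s : S i, CoprodI.of s ∈ N → s = 1) ∨ (∀ s : S i, CoprodI.of s ∈ N)) ∧
      ∃ I : Finset (Fin n), I.card = n - m ∧
        ∀ L : List (Σ i, S i), L ≠ [] → (∀ z ∈ L, z.2 ≠ 1) → (∀ z ∈ L, z.1 ∈ I) →
          L.IsChain (fun a b => a.1 ≠ b.1) → pr L ∉ N := by
  classical
  choose! nx hnx1 hnx2 I hIc hI1 hI2 using step (n := n) (m := m) r
  -- the sequence
  let N : ℕ → Subgroup (CoprodI S) := fun k => nx^[k] N0
  have hN0' : N 0 = N0 := rfl
  have hNs : ∀ k, N (k + 1) = nx (N k) := fun k => Function.iterate_succ_apply' nx k N0
  have hg : ∀ k, Good r (N k) := by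
    intro k
    induction k with
    | zero => exact hN0
    | succ k ih => rw [hNs]; exact hnx2 _ ih
  have hdec : ∀ k, N (k + 1) ≤ N k := fun k => by rw [hNs]; exact hnx1 _ (hg k)
  have hanti : ∀ k l, k ≤ l → N l ≤ N k := by
    intro k l hkl
    induction hkl with
    | refl => exact le_rfl
    | step _ ih => exact (hdec _).trans ih
  -- a set of indices which occurs infinitely often
  obtain ⟨J, hJ⟩ := Finite.exists_infinite_fiber (fun k => I (N k))
  have hJ' : ∀ K : ℕ, ∃ k, K ≤ k ∧ I (N k) = J := by
    intro K
    have hinf : Set.Infinite ((fun k => I (N k)) ⁻¹' {J}) := Set.infinite_coe_iff.mp hJ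
    obtain ⟨k, hk, hlt⟩ := hinf.exists_gt K
    exact ⟨k, hlt.le, hk⟩
  have hJc : J.card = n - m := by
    obtain ⟨k, _, hk⟩ := hJ' 0
    rw [← hk]; exact hIc _ (hg k)
  refine ⟨⨅ k, N k, ?_, iInf_le_of_le 0 le_rfl, ?_, ?_, J, hJc, ?_⟩
  · exact Subgroup.normal_iInf_normal (fun k => good_normal (hg k))
  · intro j
    rw [Subgroup.mem_iInf]
    intro k
    obtain ⟨G, _, _, _, _, ψ, hker, hr, _⟩ := hg k
    rw [← hker, MonoidHom.mem_ker]
    exact hr j
  · intro i
    by_cases h : ∃ k, ∀ s : S i, CoprodI.of s ∈ N k → s = 1
    · obtain ⟨k, hk⟩ := h
      left
      intro s hs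
      rw [Subgroup.mem_iInf] at hs
      exact hk s (hs k)
    · right
      intro s
      rw [Subgroup.mem_iInf]
      intro k
      obtain ⟨G, _, _, _, _, ψ, hker, hr, hst⟩ := hg k
      rcases hst i with h' | ⟨h', _⟩
      · exfalso
        apply h
        refine ⟨k, fun s hs => h' s ?_⟩
        rwa [← hker, MonoidHom.mem_ker] at hs
      · rw [← hker, MonoidHom.mem_ker]
        exact h' s
  · -- the main induction
    have hnorm : (⨅ k, N k).Normal := Subgroup.normal_iInf_normal (fun k => good_normal (hg k))
    -- eventually outside
    have hev : ∀ x : CoprodI S, x ∉ (⨅ k, N k) → ∃ K, ∀ k, K ≤ k → x ∉ N k := by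
      intro x hx
      rw [Subgroup.mem_iInf] at hx
      push Not at hx
      obtain ⟨K, hK⟩ := hx
      exact ⟨K, fun k hk h => hK (hanti K k hk h)⟩
    have hevs : ∀ X : List (CoprodI S), (∀ x ∈ X, x ∉ (⨅ k, N k)) →
        ∃ K, ∀ k, K ≤ k → ∀ x ∈ X, x ∉ N k := by
      intro X
      induction X with
      | nil => intro _; exact ⟨0, by simp⟩
      | cons x X ih =>
        intro h
        obtain ⟨K1, h1⟩ := hev x (h x List.mem_cons_self)
        obtain ⟨K2, h2⟩ := ih (fun y hy => h y (List.mem_cons_of_mem _ hy))
        refine ⟨max K1 K2, fun k hk y hy => ?_⟩
        rcases List.mem_cons.mp hy with hy | hy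
        · rw [hy]; exact h1 k ((le_max_left _ _).trans hk)
        · exact h2 k ((le_max_right _ _).trans hk) y hy
    suffices H : ∀ l : ℕ, ∀ L : List (Σ i, S i), L.length = l → L ≠ [] → (∀ z ∈ L, z.2 ≠ 1) →
        (∀ z ∈ L, z.1 ∈ J) → L.IsChain (fun a b => a.1 ≠ b.1) → pr L ∉ (⨅ k, N k) by
      intro L
      exact H L.length L rfl
    intro l
    induction l using Nat.strong_induction_on with
    | _ l ih =>
      intro L hl hne hone hmem hch
      cases L with
      | nil => exact absurd rfl hne
      | cons x L0 =>
        induction L0 using List.reverseRecOn with
        | nil =>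
          -- one letter
          rw [pr_cons, pr_nil, mul_one]
          intro hx
          rw [Subgroup.mem_iInf] at hx
          obtain ⟨k, _, hk⟩ := hJ' 0
          have hx' := hx (k + 1)
          rw [hNs] at hx'
          exact hone x List.mem_cons_self (hI1 _ (hg k) x.1
            (by rw [hk]; exact hmem x List.mem_cons_self) x.2 hx')
        | append_singleton L y _ =>
          have hlen : l = L.length + 2 := by
            rw [← hl]; simp
          by_cases hxy : y.1 = x.1
          · -- conjugation
            obtain ⟨ix, a⟩ := x
            obtain ⟨iy, b⟩ := y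
            simp only at hxy
            subst hxy
            have hLne : L ≠ [] := by
              rintro rfl
              rw [List.nil_append] at hch
              simp at hch
            intro hu
            have hu2 : (CoprodI.of a)⁻¹ * pr (⟨iy, a⟩ :: (L ++ [⟨iy, b⟩])) * CoprodI.of a ∈
                (⨅ k, N k) := by
              have := hnorm.conj_mem _ hu (CoprodI.of a)⁻¹
              simpa using this
            have e1 : (CoprodI.of a)⁻¹ * pr (⟨iy, a⟩ :: (L ++ [⟨iy, b⟩])) * CoprodI.of a =
                pr L * CoprodI.of (b * a) := by
              rw [pr_cons, pr_append, pr_cons, pr_nil, map_mul]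
              simp only [mul_one]
              group
            rw [e1] at hu2
            have hchL : L.IsChain (fun a b => a.1 ≠ b.1) := by
              have := hch.tail
              simp only [List.tail_cons] at this
              exact this.left_of_append
            by_cases hba : b * a = 1
            · rw [hba, map_one, mul_one] at hu2
              exact ih L.length (by omega) L rfl hLne
                (fun z hz => hone z (List.mem_cons_of_mem _ (List.mem_append_left _ hz)))
                (fun z hz => hmem z (List.mem_cons_of_mem _ (List.mem_append_left _ hz))) hchL hu2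
            · have e2 : pr L * CoprodI.of (b * a) = pr (L ++ [⟨iy, b * a⟩]) := by
                rw [pr_append, pr_cons, pr_nil, mul_one]
              rw [e2] at hu2
              refine ih (L.length + 1) (by omega) (L ++ [⟨iy, b * a⟩]) (by simp) (by simp) ?_ ?_ ?_
                hu2
              · intro z hz
                rcases List.mem_append.mp hz with hz | hz
                · exact hone z (List.mem_cons_of_mem _ (List.mem_append_left _ hz))
                · rw [List.mem_singleton] at hz
                  rw [hz]; exact hba
              · intro z hz
                rcases List.mem_append.mp hz with hz | hz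
                · exact hmem z (List.mem_cons_of_mem _ (List.mem_append_left _ hz))
                · rw [List.mem_singleton] at hz
                  rw [hz]
                  exact hmem ⟨iy, b⟩ (by simp)
              · have h3 : (L ++ [(⟨iy, b⟩ : Σ i, S i)]).IsChain (fun a b => a.1 ≠ b.1) := by
                  have := hch.tail
                  simpa only [List.tail_cons] using this
                rw [List.isChain_append] at h3 ⊢
                refine ⟨h3.1, by simp, ?_⟩
                intro z hz w hw
                have := h3.2.2 z hz ⟨iy, b⟩ (by simp)
                simp only [List.head?_cons, Option.mem_def, Option.some.injEq] at hw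
                rw [← hw]
                exact this
          · -- cyclically reduced
            have hini : ∀ L' L'' : List (Σ i, S i), L = L' ++ L'' →
                pr (x :: L') ∉ (⨅ k, N k) := by
              intro L' L'' h
              have hch' : (x :: L').IsChain (fun a b => a.1 ≠ b.1) := by
                have : x :: (L ++ [y]) = (x :: L') ++ (L'' ++ [y]) := by rw [h]; simp
                rw [this] at hch
                exact hch.left_of_append
              refine ih (L'.length + 1) ?_ (x :: L') (by simp) (by simp) ?_ ?_ hch'
              · have : L.length = L'.length + L''.length := by rw [h]; simp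
                omega
              · intro z hz
                apply hone z
                rcases List.mem_cons.mp hz with hz | hz
                · rw [hz]; exact List.mem_cons_self
                · exact List.mem_cons_of_mem _ (List.mem_append_left _ (by
                    rw [h]; exact List.mem_append_left _ hz))
              · intro z hz
                apply hmem z
                rcases List.mem_cons.mp hz with hz | hz
                · rw [hz]; exact List.mem_cons_self
                · exact List.mem_cons_of_mem _ (List.mem_append_left _ (by
                    rw [h]; exact List.mem_append_left _ hz))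
            have hlet : ∀ z ∈ x :: L, CoprodI.of z.2 ∉ (⨅ k, N k) := by
              intro z hz
              have hz' : z ∈ x :: (L ++ [y]) := by
                rcases List.mem_cons.mp hz with hz | hz
                · rw [hz]; exact List.mem_cons_self
                · exact List.mem_cons_of_mem _ (List.mem_append_left _ hz)
              have := ih 1 (by omega) [z] rfl (by simp)
                (fun w hw => by rw [List.mem_singleton] at hw; rw [hw]; exact hone z hz')
                (fun w hw => by rw [List.mem_singleton] at hw; rw [hw]; exact hmem z hz')
                (by simp)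
              simpa using this
            obtain ⟨K1, hK1⟩ := hevs (L.inits.map fun L' => pr (x :: L')) (by
              intro u hu
              obtain ⟨L', hL', rfl⟩ := List.mem_map.mp hu
              rw [List.mem_inits] at hL'
              obtain ⟨L'', hL''⟩ := hL'
              exact hini L' L'' hL''.symm)
            obtain ⟨K2, hK2⟩ := hevs ((x :: L).map fun z => CoprodI.of z.2) (by
              intro u hu
              obtain ⟨z, hz, rfl⟩ := List.mem_map.mp hu
              exact hlet z hz)
            obtain ⟨k, hk1, hk2⟩ := hJ' (max K1 K2)
            have key := hI2 (N k) (hg k) x L y hxy (by rw [hk2]; exact hmem)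
              (fun z hz => hK2 k ((le_max_right _ _).trans hk1) _ (List.mem_map.mpr ⟨z, hz, rfl⟩))
              (fun L' L'' h => hK1 k ((le_max_left _ _).trans hk1) _
                (List.mem_map.mpr ⟨L', (List.mem_inits _ _).mpr ⟨L'', h.symm⟩, rfl⟩))
            intro hu
            rw [Subgroup.mem_iInf] at hu
            have := hu (k + 1)
            rw [hNs] at this
            exact key this

end Pool.Agent.Run7.h621
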